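import Mathlib

set_option autoImplicit false

/-!
# The lattice `R(G)` of the regular closed families of connected vertex sets of a graph
-/

namespace Pool.Agent.U728.RGraph

variable {V : Type*} (G : SimpleGraph V)

/-- `so(G)`: the (nonempty) sets of vertices which induce a connected subgraph of `G`. -/
def So : Type _ := {X : Set V // (G.induce X).Connected}

/-- A family `a ⊆ so(G)` is closed if it contains the union of any two disjoint members whose union
is in `so(G)`. -/
def IsClosedFam (a : Set (So G)) : Prop :=
  ∀ X ∈ a, ∀ Y ∈ a, Disjoint X.1 Y.1 → ∀ Z : So G, Z.1 = X.1 ∪ Y.1 → Z ∈ a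

/-- `cl(a)`: the least closed family containing `a`. -/
def cl (a : Set (So G)) : Set (So G) := ⋂₀ {b | IsClosedFam G b ∧ a ⊆ b}

/-- The interior operator `so(G) ∖ cl(so(G) ∖ a)`. -/
def interior (a : Set (So G)) : Set (So G) := (cl G aᶜ)ᶜ

/-- A family is regular closed if it is the closure of its interior. -/
def IsRegularClosed (a : Set (So G)) : Prop := a = cl G (interior G a)

/-- The elements of `R(G)`: the regular closed families. -/
def R : Type _ := {a : Set (So G) // IsRegularClosed G a}

variable {G}

theorem subset_cl (a : Set (So G)) : a ⊆ cl G a := fun _ h _ hb => hb.2 h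

theorem cl_subset {a b : Set (So G)} (h : a ⊆ b) (hb : IsClosedFam G b) : cl G a ⊆ b :=
  fun _ hx => hx b ⟨hb, h⟩

theorem cl_closed (a : Set (So G)) : IsClosedFam G (cl G a) :=
  fun X hX Y hY hd Z hZ b hb => hb.1 X (hX b hb) Y (hY b hb) hd Z hZ

theorem cl_mono {a b : Set (So G)} (h : a ⊆ b) : cl G a ⊆ cl G b :=
  cl_subset (h.trans (subset_cl b)) (cl_closed b)

theorem cl_cl (a : Set (So G)) : cl G (cl G a) = cl G a :=
  (cl_subset subset_rfl (cl_closed a)).antisymm (subset_cl _)

theorem interior_subset (a : Set (So G)) : interior G a ⊆ a := by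
  intro x hx
  by_contra h
  exact hx (subset_cl _ h)

theorem interior_mono {a b : Set (So G)} (h : a ⊆ b) : interior G a ⊆ interior G b :=
  Set.compl_subset_compl.2 (cl_mono (Set.compl_subset_compl.2 h))

theorem interior_interior (a : Set (So G)) : interior G (interior G a) = interior G a := by
  unfold interior
  rw [compl_compl, cl_cl]

theorem R.closed (a : R G) : IsClosedFam G a.1 := by
  rw [a.2]
  exact cl_closed _

/-- The join in `R(G)`: the closure of the union. -/
def R.sup (a b : R G) : R G := ⟨cl G (a.1 ∪ b.1), by
  refine Set.Subset.antisymm ?_ (cl_subset (interior_subset _) (cl_closed _))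
  refine cl_subset (Set.union_subset ?_ ?_) (cl_closed _)
  · intro x hx
    rw [a.2] at hx
    exact cl_mono (interior_mono (Set.subset_union_left.trans (subset_cl _))) hx
  · intro x hx
    rw [b.2] at hx
    exact cl_mono (interior_mono (Set.subset_union_right.trans (subset_cl _))) hx⟩

/-- The meet in `R(G)`: the closure of the interior of the intersection. -/
def R.inf (a b : R G) : R G := ⟨cl G (interior G (a.1 ∩ b.1)), by
  refine Set.Subset.antisymm ?_ (cl_subset (interior_subset _) (cl_closed _))
  refine cl_mono ?_
  calc interior G (a.1 ∩ b.1) = interior G (interior G (a.1 ∩ b.1)) := (interior_interior _).symm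
    _ ⊆ interior G (cl G (interior G (a.1 ∩ b.1))) := interior_mono (subset_cl _)⟩

variable (G) in
/-- The lattice `R(G)`, ordered by inclusion. -/
@[instance_reducible]
def R.lattice : Lattice (R G) where
  le a b := a.1 ⊆ b.1
  le_refl _ := subset_rfl
  le_trans _ _ _ h h' := Set.Subset.trans h h'
  le_antisymm _ _ h h' := Subtype.ext (Set.Subset.antisymm h h')
  sup := R.sup
  le_sup_left _ _ := Set.subset_union_left.trans (subset_cl _)
  le_sup_right _ _ := Set.subset_union_right.trans (subset_cl _)
  sup_le _ _ c h h' := cl_subset (Set.union_subset h h') c.closed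
  inf := R.inf
  inf_le_left a _ := cl_subset ((interior_subset _).trans Set.inter_subset_left) a.closed
  inf_le_right _ b := cl_subset ((interior_subset _).trans Set.inter_subset_right) b.closed
  le_inf a b c h h' := by
    show a.1 ⊆ cl G (interior G (b.1 ∩ c.1))
    intro x hx
    rw [a.2] at hx
    exact cl_mono (interior_mono (Set.subset_inter h h')) hx

end Pool.Agent.U728.RGraph
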