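import Mathlib

set_option autoImplicit false

/-!
# The cover graph of the lattice of upper sets of a finite partially ordered set

`H E` is the graph on the upper sets of `E` in which two upper sets are adjacent if they differ in
exactly one element, and `S x y`, for `x < y`, is the set of the upper sets which contain `y` and do
not contain `x`.  It is connected, and these are the only connected sets of vertices whose indicator
function has the form `A ↦ ∑_{x ∈ A} c x` with `∑ c = 0`.
-/

namespace Pool.Agent.U728.RGraph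

open Finset

/-- The upper sets of `E`. -/
abbrev Up (E : Type*) [PartialOrder E] : Type _ := {A : Set E // IsUpperSet A}

/-- The cover graph of the lattice of upper sets: `A` and `B` are adjacent if one of them arises
from the other by adding one element. -/
def H (E : Type*) [PartialOrder E] : SimpleGraph (Up E) where
  Adj A B := (∃ z, z ∉ A.1 ∧ B.1 = insert z A.1) ∨ ∃ z, z ∉ B.1 ∧ A.1 = insert z B.1
  symm := ⟨fun _ _ h => h.symm⟩
  loopless := ⟨by
    rintro A (⟨z, hz, h⟩ | ⟨z, hz, h⟩)
    · exact hz (by rw [h]; exact Set.mem_insert _ _)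
    · exact hz (by rw [h]; exact Set.mem_insert _ _)⟩

/-- The upper sets which contain `y` and do not contain `x`. -/
def S {E : Type*} [PartialOrder E] (x y : E) : Set (Up E) := {A | y ∈ A.1 ∧ x ∉ A.1}

section basic

variable {E : Type*} [PartialOrder E]

theorem erase_upper {A : Set E} (hA : IsUpperSet A) {y : E} (hy : ∀ a ∈ A, a ≤ y → a = y) :
    IsUpperSet (A \ {y}) := by
  rintro a b hab ⟨ha, hne⟩
  refine ⟨hA hab ha, fun hb => hne ?_⟩
  rw [Set.mem_singleton_iff] at hb ⊢
  subst hb
  exact hy a ha hab

theorem insert_upper {A : Set E} (hA : IsUpperSet A) {z : E} (hz : ∀ a, a ∉ A → z ≤ a → a = z) :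
    IsUpperSet (insert z A) := by
  rintro a b hab ha
  rcases ha with rfl | ha
  · by_cases hb : b ∈ A
    · exact Or.inr hb
    · exact Or.inl (hz b hb hab)
  · exact Or.inr (hA hab ha)

/-- the upper closure -/
def up (W : Set E) : Set E := {x | ∃ w ∈ W, w ≤ x}

theorem up_upper (W : Set E) : IsUpperSet (up W) := by
  rintro a b hab ⟨w, hw, hwa⟩
  exact ⟨w, hw, hwa.trans hab⟩

/-- the complement of the lower closure -/
def co (Z : Set E) : Set E := {x | ∀ z ∈ Z, ¬ x ≤ z}

theorem co_upper (Z : Set E) : IsUpperSet (co Z) := by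
  intro a b hab ha z hz hbz
  exact ha z hz (hab.trans hbz)

variable [Fintype E]

/-- The sum of `c` over `A`. -/
noncomputable def cs (c : E → ℚ) (A : Set E) : ℚ := ∑ x, A.indicator c x

omit [PartialOrder E] in
theorem cs_insert (c : E → ℚ) {A : Set E} {z : E} (hz : z ∉ A) :
    cs c (insert z A) = cs c A + c z := by
  classical
  have h1 : ∀ x, (insert z A).indicator c x = A.indicator c x + if x = z then c z else 0 := by
    intro x
    by_cases hx : x = z
    · subst hx
      rw [Set.indicator_of_mem (Set.mem_insert _ _), Set.indicator_of_notMem hz, if_pos rfl,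
        zero_add]
    · rw [if_neg hx, add_zero]
      by_cases hA : x ∈ A
      · rw [Set.indicator_of_mem (Set.mem_insert_of_mem _ hA), Set.indicator_of_mem hA]
      · rw [Set.indicator_of_notMem hA, Set.indicator_of_notMem]
        rintro (h | h)
        · exact hx h
        · exact hA h
  unfold cs
  rw [Finset.sum_congr rfl fun x _ => h1 x, Finset.sum_add_distrib, Finset.sum_ite_eq' univ z,
    if_pos (Finset.mem_univ _)]

omit [PartialOrder E] in
theorem cs_erase (c : E → ℚ) {A : Set E} {z : E} (hz : z ∈ A) :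
    cs c (A \ {z}) = cs c A - c z := by
  have h := cs_insert c (A := A \ {z}) (z := z) (by simp)
  rw [Set.insert_sdiff_singleton, Set.insert_eq_of_mem hz] at h
  rw [h]
  ring

omit [PartialOrder E] in
theorem cs_congr (c : E → ℚ) {A B : Set E} (h : ∀ x, c x ≠ 0 → (x ∈ A ↔ x ∈ B)) :
    cs c A = cs c B := by
  classical
  unfold cs
  apply Finset.sum_congr rfl
  intro x _
  by_cases hx : c x = 0
  · rw [Set.indicator_apply, Set.indicator_apply, hx, ite_self, ite_self]
  · by_cases hA : x ∈ A
    · rw [Set.indicator_of_mem hA, Set.indicator_of_mem ((h x hx).1 hA)]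
    · rw [Set.indicator_of_notMem hA, Set.indicator_of_notMem fun h' => hA ((h x hx).2 h')]

omit [PartialOrder E] in
theorem cs_empty (c : E → ℚ) : cs c ∅ = 0 := by
  unfold cs
  simp

/-- existence of minimal elements -/
theorem exists_min {W : Set E} (hW : W.Nonempty) : ∃ w ∈ W, ∀ a ∈ W, a ≤ w → a = w := by
  obtain ⟨w, hw, h⟩ := (Set.toFinite W).exists_minimal hW
  exact ⟨w, hw, fun a ha haw => le_antisymm haw (h ha haw)⟩

/-- existence of maximal elements -/
theorem exists_max {W : Set E} (hW : W.Nonempty) : ∃ w ∈ W, ∀ a ∈ W, w ≤ a → a = w := by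
  obtain ⟨w, hw, h⟩ := (Set.toFinite W).exists_maximal hW
  exact ⟨w, hw, fun a ha haw => le_antisymm (h ha haw) haw⟩

/-- The connected sets of upper sets whose indicator function is a sum. -/
theorem key (T : Set (Up E)) (hconn : ((H E).induce T).Connected) (c : E → ℚ)
    (h0 : cs c Set.univ = 0) (hT1 : ∀ A ∈ T, cs c A.1 = 1) (hT0 : ∀ A ∉ T, cs c A.1 = 0) :
    ∃ x y, x < y ∧ T = S x y := by
  have h01 : ∀ A : Set E, IsUpperSet A → cs c A = 0 ∨ cs c A = 1 := by
    intro A hA
    by_cases h : (⟨A, hA⟩ : Up E) ∈ T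
    · exact Or.inr (hT1 _ h)
    · exact Or.inl (hT0 _ h)
  have hmem : ∀ (A : Set E) (hA : IsUpperSet A), cs c A = 1 → (⟨A, hA⟩ : Up E) ∈ T := by
    intro A hA h
    by_contra hn
    have := hT0 _ hn
    simp only at this
    rw [h] at this
    exact one_ne_zero this
  -- the elements with nonzero `c` are the same in all members of `T`
  have hconst : ∀ A ∈ T, ∀ B ∈ T, ∀ x, c x ≠ 0 → (x ∈ A.1 ↔ x ∈ B.1) := by
    have hstep : ∀ A ∈ T, ∀ B ∈ T, (H E).Adj A B → ∀ x, c x ≠ 0 → (x ∈ A.1 ↔ x ∈ B.1) := by
      have aux : ∀ A ∈ T, ∀ B ∈ T, (∃ z, z ∉ A.1 ∧ B.1 = insert z A.1) →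
          ∀ x, c x ≠ 0 → (x ∈ A.1 ↔ x ∈ B.1) := by
        rintro A hA B hB ⟨z, hz, h⟩ x hx
        have h1 := hT1 A hA
        have h2 := hT1 B hB
        rw [h, cs_insert c hz, h1] at h2
        have h3 : c z = 0 := by linarith
        rw [h]
        constructor
        · exact fun h' => Or.inr h'
        · rintro (h' | h')
          · rw [h'] at hx
            exact absurd h3 hx
          · exact h'
      rintro A hA B hB (h | h) x hx
      · exact aux A hA B hB h x hx
      · exact (aux B hB A hA h x hx).symm
    intro A hA B hB x hx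
    obtain ⟨w⟩ := hconn.preconnected ⟨A, hA⟩ ⟨B, hB⟩
    have hw : ∀ (u v : T) (_ : ((H E).induce T).Walk u v), (x ∈ u.1.1 ↔ x ∈ v.1.1) := by
      intro u v w
      induction w with
      | nil => exact Iff.rfl
      | cons h _ ih => exact (hstep _ (Subtype.property _) _ (Subtype.property _) h x hx).trans ih
    exact hw _ _ w
  obtain ⟨⟨A0, hA0⟩⟩ := hconn.nonempty
  have hcsA0 : cs c A0.1 = 1 := hT1 _ hA0
  -- the elements of the support in `A0`
  set W : Set E := {x | c x ≠ 0 ∧ x ∈ A0.1} with hWdef
  set Z : Set E := {x | c x ≠ 0 ∧ x ∉ A0.1} with hZdef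
  have hWne : W.Nonempty := by
    by_contra h
    rw [Set.not_nonempty_iff_eq_empty] at h
    have : cs c A0.1 = cs c ∅ := by
      apply cs_congr
      intro x hx
      constructor
      · intro h'
        have : x ∈ W := ⟨hx, h'⟩
        rw [h] at this
        exact this
      · intro h'
        exact h'.elim
    rw [cs_empty, hcsA0] at this
    exact one_ne_zero this
  have hZne : Z.Nonempty := by
    by_contra h
    rw [Set.not_nonempty_iff_eq_empty] at h
    have : cs c A0.1 = cs c Set.univ := by
      apply cs_congr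
      intro x hx
      constructor
      · intro _
        trivial
      · intro _
        by_contra h'
        have : x ∈ Z := ⟨hx, h'⟩
        rw [h] at this
        exact this
    rw [h0, hcsA0] at this
    exact one_ne_zero this
  obtain ⟨y, hyW, hymin⟩ := exists_min hWne
  obtain ⟨x0, hxZ, hxmax⟩ := exists_max hZne
  have hupA0 : ∀ x ∈ up W, x ∈ A0.1 := by
    rintro x ⟨w, hw, hwx⟩
    exact A0.2 hwx hw.2
  -- the lower end of the part inside
  have hy1 : ∀ x ∈ W, x = y := by
    have hcs1 : cs c (up W) = 1 := by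
      rw [← hcsA0]
      apply cs_congr
      intro x hx
      exact ⟨hupA0 x, fun h => ⟨x, ⟨hx, h⟩, le_rfl⟩⟩
    have hymin' : ∀ a ∈ up W, a ≤ y → a = y := by
      rintro a ⟨w, hw, hwa⟩ hay
      have := hymin w hw (hwa.trans hay)
      subst this
      exact le_antisymm hay hwa
    have hyup : y ∈ up W := ⟨y, hyW, le_rfl⟩
    have hA1 : IsUpperSet (up W \ {y}) := erase_upper (up_upper W) hymin'
    have hcs2 : cs c (up W \ {y}) = 0 := by
      have h1 := h01 _ hA1
      rw [cs_erase c hyup, hcs1] at h1 ⊢
      rcases h1 with h1 | h1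
      · exact h1
      · exfalso
        exact hyW.1 (by linarith)
    by_contra hcon
    push Not at hcon
    obtain ⟨x1, hx1, hx1y⟩ := hcon
    set W' : Set E := {x | x ∈ W ∧ x ≠ y} with hW'def
    have hyn : y ∉ up W' := by
      rintro ⟨w, hw, hwy⟩
      exact hw.2 (hymin w hw.1 hwy)
    have hcs3 : cs c (up W') = 0 := by
      rw [← hcs2]
      apply cs_congr
      intro x hx
      constructor
      · rintro ⟨w, hw, hwx⟩
        refine ⟨⟨w, hw.1, hwx⟩, ?_⟩
        rw [Set.mem_singleton_iff]
        rintro rfl
        exact hyn ⟨w, hw, hwx⟩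
      · rintro ⟨h1, h2⟩
        exact ⟨x, ⟨⟨hx, hupA0 x h1⟩, h2⟩, le_rfl⟩
    obtain ⟨w, hw, hwmin⟩ := exists_min (W := W') ⟨x1, hx1, hx1y⟩
    have hwmin' : ∀ a ∈ up W', a ≤ w → a = w := by
      rintro a ⟨w', hw', hwa⟩ haw
      have := hwmin w' hw' (hwa.trans haw)
      subst this
      exact le_antisymm haw hwa
    have hA2 : IsUpperSet (up W' \ {w}) := erase_upper (up_upper W') hwmin'
    have hcs4 : cs c (up W' \ {w}) = 1 := by
      have h1 := h01 _ hA2
      rw [cs_erase c (show w ∈ up W' from ⟨w, hw, le_rfl⟩), hcs3] at h1 ⊢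
      rcases h1 with h1 | h1
      · exfalso
        exact hw.1.1 (by linarith)
      · exact h1
    have h2 := (hconst _ (hmem _ hA2 hcs4) A0 hA0 y hyW.1).2 hyW.2
    exact hyn h2.1
  -- the upper end of the part outside
  have hx1 : ∀ x ∈ Z, x = x0 := by
    have hcs1 : cs c (co Z) = 1 := by
      rw [← hcsA0]
      apply cs_congr
      intro x hx
      constructor
      · intro h
        by_contra h'
        exact h x ⟨hx, h'⟩ le_rfl
      · intro h z hz hxz
        exact hz.2 (A0.2 hxz h)
    have hx0n : x0 ∉ co Z := fun h => h x0 hxZ le_rfl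
    have hmax' : ∀ a, a ∉ co Z → x0 ≤ a → a = x0 := by
      intro a ha hxa
      unfold co at ha
      simp only [Set.mem_ofPred_eq, not_forall, not_not] at ha
      obtain ⟨z, hz, haz⟩ := ha
      have := hxmax z hz (hxa.trans haz)
      subst this
      exact le_antisymm haz hxa
    have hB1 : IsUpperSet (insert x0 (co Z)) := insert_upper (co_upper Z) hmax'
    have hcs2 : cs c (insert x0 (co Z)) = 0 := by
      have h1 := h01 _ hB1
      rw [cs_insert c hx0n, hcs1] at h1 ⊢
      rcases h1 with h1 | h1
      · exact h1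
      · exfalso
        exact hxZ.1 (by linarith)
    by_contra hcon
    push Not at hcon
    obtain ⟨x1, hx1, hx1y⟩ := hcon
    set Z' : Set E := {x | x ∈ Z ∧ x ≠ x0} with hZ'def
    have hxin : x0 ∈ co Z' := by
      rintro z hz hxz
      exact hz.2 (hxmax z hz.1 hxz)
    have hcs3 : cs c (co Z') = 0 := by
      rw [← hcs2]
      apply cs_congr
      intro x hx
      constructor
      · intro h
        by_cases hxx : x = x0
        · exact Or.inl hxx
        · right
          intro z hz hxz
          by_cases hzz : z = x0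
          · subst hzz
            by_cases hxA : x ∈ A0.1
            · exact hxZ.2 (A0.2 hxz hxA)
            · exact h x ⟨⟨hx, hxA⟩, hxx⟩ le_rfl
          · exact h z ⟨hz, hzz⟩ hxz
      · rintro (h | h)
        · rw [h]
          exact hxin
        · intro z hz hxz
          exact h z hz.1 hxz
    obtain ⟨w, hw, hwmax⟩ := exists_max (W := Z') ⟨x1, hx1, hx1y⟩
    have hwmax' : ∀ a, a ∉ co Z' → w ≤ a → a = w := by
      intro a ha hwa
      unfold co at ha
      simp only [Set.mem_ofPred_eq, not_forall, not_not] at ha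
      obtain ⟨z, hz, haz⟩ := ha
      have := hwmax z hz (hwa.trans haz)
      subst this
      exact le_antisymm haz hwa
    have hwn : w ∉ co Z' := fun h => h w hw le_rfl
    have hB2 : IsUpperSet (insert w (co Z')) := insert_upper (co_upper Z') hwmax'
    have hcs4 : cs c (insert w (co Z')) = 1 := by
      have h1 := h01 _ hB2
      rw [cs_insert c hwn, hcs3] at h1 ⊢
      rcases h1 with h1 | h1
      · exfalso
        exact hw.1.1 (by linarith)
      · exact h1
    have h2 := (hconst _ (hmem _ hB2 hcs4) A0 hA0 x0 hxZ.1).1 (Or.inr hxin)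
    exact hxZ.2 h2
  have hsupp : ∀ x, c x ≠ 0 → x = y ∨ x = x0 := by
    intro x hx
    by_cases h : x ∈ A0.1
    · exact Or.inl (hy1 x ⟨hx, h⟩)
    · exact Or.inr (hx1 x ⟨hx, h⟩)
  refine ⟨x0, y, ?_, ?_⟩
  · -- `x0 < y`
    have hne : x0 ≠ y := by
      rintro rfl
      exact hxZ.2 hyW.2
    by_contra hlt
    have hny : ¬ x0 ≤ y := fun h => hlt (lt_of_le_of_ne h hne)
    have hcx : c x0 ≠ 0 := hxZ.1
    have e1 : cs c (Set.Ioi x0) = 0 := by
      rw [← cs_empty c]
      apply cs_congr
      intro x hx
      constructor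
      · intro h
        rcases hsupp x hx with rfl | rfl
        · exact (hny (le_of_lt h)).elim
        · exact (lt_irrefl _ h).elim
      · intro h
        exact h.elim
    have e2 : Set.Ici x0 = insert x0 (Set.Ioi x0) := by
      ext x
      constructor
      · intro h
        rcases eq_or_lt_of_le h with h' | h'
        · exact Or.inl h'.symm
        · exact Or.inr h'
      · rintro (h | h)
        · rw [h]; exact le_rfl
        · exact le_of_lt h
    have e3 : cs c (Set.Ici x0) = c x0 := by
      rw [e2, cs_insert c (by simp), e1, zero_add]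
    -- `c x0 = -1`
    have e4 : cs c (insert x0 A0.1) = 0 := by
      rw [← h0]
      apply cs_congr
      intro x hx
      refine ⟨fun _ => trivial, fun _ => ?_⟩
      rcases hsupp x hx with rfl | rfl
      · exact Or.inr hyW.2
      · exact Or.inl rfl
    rw [cs_insert c hxZ.2, hcsA0] at e4
    rcases h01 _ (isUpperSet_Ici x0) with h | h
    · rw [e3] at h
      linarith
    · rw [e3] at h
      linarith
  · ext A
    constructor
    · intro hA
      refine ⟨(hconst A hA A0 hA0 y hyW.1).2 hyW.2, fun h => ?_⟩
      exact hxZ.2 ((hconst A hA A0 hA0 x0 hxZ.1).1 h)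
    · rintro ⟨h1, h2⟩
      refine hmem A.1 A.2 ?_
      rw [← hcsA0]
      apply cs_congr
      intro x hx
      rcases hsupp x hx with rfl | rfl
      · exact ⟨fun _ => hyW.2, fun _ => h1⟩
      · exact ⟨fun h => (h2 h).elim, fun h => (hxZ.2 h).elim⟩

/-- `S x y` is connected. -/
theorem S_connected {x y : E} (hxy : x < y) : ((H E).induce (S x y)).Connected := by
  classical
  have hbase : (⟨Set.Ici y, isUpperSet_Ici y⟩ : Up E) ∈ S x y :=
    ⟨le_rfl, fun h => absurd (lt_of_lt_of_le hxy h) (lt_irrefl _)⟩
  have hreach : ∀ n : ℕ, ∀ A : S x y, A.1.1.ncard = n →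
      ((H E).induce (S x y)).Reachable A ⟨_, hbase⟩ := by
    intro n
    induction n with
    | zero =>
      intro A hA
      exfalso
      rw [Set.ncard_eq_zero (Set.toFinite _)] at hA
      have := A.2.1
      rw [hA] at this
      exact this
    | succ n ih =>
      intro A hA
      by_cases hAe : A.1.1 = Set.Ici y
      · have : A = ⟨⟨Set.Ici y, isUpperSet_Ici y⟩, hbase⟩ := by
          apply Subtype.ext
          apply Subtype.ext
          exact hAe
        rw [this]
      · have hsub : Set.Ici y ⊆ A.1.1 := fun z hz => A.1.2 hz A.2.1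
        have hne : (A.1.1 \ Set.Ici y).Nonempty := by
          rw [Set.nonempty_iff_ne_empty]
          intro h
          exact hAe (Set.Subset.antisymm (Set.sdiff_eq_empty.1 h) hsub)
        obtain ⟨z, hz, hzmin⟩ := exists_min hne
        have hzmin' : ∀ a ∈ A.1.1, a ≤ z → a = z := by
          intro a ha haz
          by_cases hay : y ≤ a
          · exact absurd (hay.trans haz) hz.2
          · exact hzmin a ⟨ha, hay⟩ haz
        have hU : IsUpperSet (A.1.1 \ {z}) := erase_upper A.1.2 hzmin'
        have hyz : y ≠ z := by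
          rintro rfl
          exact hz.2 le_rfl
        have hmemB : (⟨A.1.1 \ {z}, hU⟩ : Up E) ∈ S x y :=
          ⟨⟨A.2.1, hyz⟩, fun h => A.2.2 h.1⟩
        have hadj : ((H E).induce (S x y)).Adj A ⟨⟨A.1.1 \ {z}, hU⟩, hmemB⟩ := by
          rw [SimpleGraph.comap_adj]
          right
          refine ⟨z, fun h => h.2 rfl, ?_⟩
          show A.1.1 = insert z (A.1.1 \ {z})
          rw [Set.insert_sdiff_singleton, Set.insert_eq_of_mem hz.1]
        refine hadj.reachable.trans (ih _ ?_)
        show (A.1.1 \ {z}).ncard = n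
        rw [Set.ncard_sdiff_singleton_of_mem hz.1, hA]
        rfl
  have : Nonempty (S x y) := ⟨⟨_, hbase⟩⟩
  exact { preconnected := fun A B => (hreach _ A rfl).trans (hreach _ B rfl).symm }

end basic

end Pool.Agent.U728.RGraph
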