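import Pool.Agent.R645.RegTree
import Pool.Agent.U728.RGraph.Defs
import Pool.Agent.U728.RGraph.Key

set_option autoImplicit false

/-!
# `Reg(e)` embeds in `R(H)`, `H` the cover graph of the lattice of upper sets
-/

namespace Pool.Agent.U728.RGraph

open Relation
open Pool.Agent.R645.RegTree (LTerm)

section combi

variable {E : Type*} [PartialOrder E]

/-- principal upper set -/
def P (u : E) : Up E := ⟨Set.Ici u, isUpperSet_Ici u⟩

/-- the complement of a principal lower set -/
def Q (u : E) : Up E := ⟨co {u}, co_upper _⟩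

theorem P_mem (u x y : E) : P u ∈ S x y ↔ u ≤ y ∧ ¬ u ≤ x := Iff.rfl

theorem Q_mem (u x y : E) : Q u ∈ S x y ↔ ¬ y ≤ u ∧ x ≤ u := by
  show (y ∈ co {u} ∧ x ∉ co {u}) ↔ _
  unfold co
  simp

theorem S_inj {x y x' y' : E} (h : x < y) (h' : x' < y') (he : S x y = S x' y') :
    x = x' ∧ y = y' := by
  have h1 : P y ∈ S x' y' := by
    rw [← he, P_mem]; exact ⟨le_rfl, not_le_of_gt h⟩
  have h2 : P y' ∈ S x y := by
    rw [he, P_mem]; exact ⟨le_rfl, not_le_of_gt h'⟩
  have h3 : Q x ∈ S x' y' := by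
    rw [← he, Q_mem]; exact ⟨not_le_of_gt h, le_rfl⟩
  have h4 : Q x' ∈ S x y := by
    rw [he, Q_mem]; exact ⟨not_le_of_gt h', le_rfl⟩
  rw [P_mem] at h1 h2
  rw [Q_mem] at h3 h4
  exact ⟨le_antisymm h4.2 h3.2, le_antisymm h1.1 h2.1⟩

theorem comp_aux {a b c d x z : E} (hab : a < b) (hcd : c < d) (hxz : x < z)
    (hd : Disjoint (S a b) (S c d)) (h : S x z = S a b ∪ S c d) (hz : P z ∈ S a b) :
    d = a ∧ x = c ∧ z = b := by
  have hsub1 : S a b ⊆ S x z := by rw [h]; exact Set.subset_union_left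
  have hsub2 : S c d ⊆ S x z := by rw [h]; exact Set.subset_union_right
  have hb : P b ∈ S x z := hsub1 ((P_mem _ _ _).2 ⟨le_rfl, not_le_of_gt hab⟩)
  rw [P_mem] at hb hz
  have hzb : z = b := le_antisymm hz.1 hb.1
  have hPd : P d ∈ S c d := (P_mem _ _ _).2 ⟨le_rfl, not_le_of_gt hcd⟩
  have hQa : Q a ∈ S x z := hsub1 ((Q_mem _ _ _).2 ⟨not_le_of_gt hab, le_rfl⟩)
  rw [Q_mem] at hQa
  have hnot : ¬ a = x := by
    rintro rfl
    have : P d ∈ S a b := by rw [← hzb]; exact hsub2 hPd
    exact Set.disjoint_left.1 hd this hPd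
  have hQx : Q x ∈ S a b ∪ S c d := by
    rw [← h, Q_mem]; exact ⟨not_le_of_gt hxz, le_rfl⟩
  rcases hQx with hQx | hQx
  · rw [Q_mem] at hQx
    exact absurd (le_antisymm hQx.2 hQa.2) hnot
  · rw [Q_mem] at hQx
    have hQc : Q c ∈ S x z := hsub2 ((Q_mem _ _ _).2 ⟨not_le_of_gt hcd, le_rfl⟩)
    rw [Q_mem] at hQc
    have hxc : x = c := le_antisymm hQc.2 hQx.2
    have hPd' := hsub2 hPd
    rw [P_mem] at hPd'
    have hda : d ≤ a := by
      by_contra hn
      have : P d ∈ S a b := by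
        rw [P_mem, ← hzb]
        exact ⟨hPd'.1, hn⟩
      exact Set.disjoint_left.1 hd this hPd
    have had : a ≤ d := by
      have h1 : P a ∈ S x z := by
        rw [P_mem, hzb]
        refine ⟨le_of_lt hab, fun hax => hnot (le_antisymm hax hQa.2)⟩
      rw [h] at h1
      rcases h1 with h1 | h1
      · rw [P_mem] at h1
        exact absurd le_rfl h1.2
      · rw [P_mem] at h1
        exact h1.1
    exact ⟨le_antisymm hda had, hxc, hzb⟩

theorem comp {a b c d x z : E} (hab : a < b) (hcd : c < d) (hxz : x < z)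
    (hd : Disjoint (S a b) (S c d)) (h : S x z = S a b ∪ S c d) :
    (d = a ∧ x = c ∧ z = b) ∨ (b = c ∧ x = a ∧ z = d) := by
  have hz : P z ∈ S a b ∪ S c d := by
    rw [← h, P_mem]; exact ⟨le_rfl, not_le_of_gt hxz⟩
  rcases hz with hz | hz
  · exact Or.inl (comp_aux hab hcd hxz hd h hz)
  · exact Or.inr (comp_aux hcd hab hxz hd.symm (by rw [h, Set.union_comm]) hz)

theorem S_union {x y z : E} (hxy : x < y) (hyz : y < z) :
    S x z = S x y ∪ S y z ∧ Disjoint (S x y) (S y z) := by
  constructor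
  · ext A
    constructor
    · rintro ⟨h1, h2⟩
      by_cases h : y ∈ A.1
      · exact Or.inl ⟨h, h2⟩
      · exact Or.inr ⟨h1, h⟩
    · rintro (⟨h1, h2⟩ | ⟨h1, h2⟩)
      · exact ⟨A.2 hyz.le h1, h2⟩
      · exact ⟨h1, fun h => h2 (A.2 hxy.le h)⟩
  · rw [Set.disjoint_left]
    rintro A ⟨h1, _⟩ ⟨_, h2⟩
    exact h2 h1

end combi

section weight

variable {E : Type*} [PartialOrder E]

/-- The properties of the weight: additive, and zero exactly on the sets `S x y`, `x < y`, among the
connected sets. -/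
structure IsWeight (w : Set (Up E) → ℚ) : Prop where
  add : ∀ X Y, Disjoint X Y → w (X ∪ Y) = w X + w Y
  zero : ∀ x y, x < y → w (S x y) = 0
  only : ∀ X : So (H E), w X.1 = 0 → ∃ x y, x < y ∧ X.1 = S x y

theorem IsWeight.neg {w : Set (Up E) → ℚ} (h : IsWeight w) : IsWeight fun X => -w X where
  add X Y hd := by rw [h.add X Y hd]; ring
  zero x y hxy := by rw [h.zero x y hxy, neg_zero]
  only X hX := h.only X (neg_eq_zero.1 hX)

omit [PartialOrder E] in
theorem cs_add [Fintype E] (c c' : E → ℚ) (A : Set E) : cs (c + c') A = cs c A + cs c' A := by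
  unfold cs
  rw [← Finset.sum_add_distrib]
  apply Finset.sum_congr rfl
  intro x _
  by_cases h : x ∈ A
  · rw [Set.indicator_of_mem h, Set.indicator_of_mem h, Set.indicator_of_mem h]; rfl
  · rw [Set.indicator_of_notMem h, Set.indicator_of_notMem h, Set.indicator_of_notMem h, add_zero]

omit [PartialOrder E] in
theorem cs_smul [Fintype E] (r : ℚ) (c : E → ℚ) (A : Set E) : cs (r • c) A = r * cs c A := by
  unfold cs
  rw [Finset.mul_sum]
  apply Finset.sum_congr rfl
  intro x _
  by_cases h : x ∈ A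
  · rw [Set.indicator_of_mem h, Set.indicator_of_mem h]; rfl
  · rw [Set.indicator_of_notMem h, Set.indicator_of_notMem h, mul_zero]

omit [PartialOrder E] in
theorem cs_single [Fintype E] [DecidableEq E] (y : E) (A : Set E) :
    cs (Pi.single y 1) A = A.indicator 1 y := by
  unfold cs
  rw [Finset.sum_eq_single y]
  · by_cases h : y ∈ A
    · rw [Set.indicator_of_mem h, Set.indicator_of_mem h, Pi.single_eq_same]; rfl
    · rw [Set.indicator_of_notMem h, Set.indicator_of_notMem h]
  · intro b _ hb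
    by_cases h : b ∈ A
    · rw [Set.indicator_of_mem h, Pi.single_eq_of_ne hb]
    · rw [Set.indicator_of_notMem h]
  · intro h
    exact absurd (Finset.mem_univ _) h

/-- The functions `A ↦ ∑_{x ∈ A} c x` with `∑ c = 0`. -/
def D (E : Type*) [PartialOrder E] [Fintype E] : Submodule ℚ (Up E → ℚ) where
  carrier := {g | ∃ c : E → ℚ, cs c Set.univ = 0 ∧ ∀ A : Up E, g A = cs c A.1}
  add_mem' := by
    rintro g g' ⟨c, h0, h⟩ ⟨c', h0', h'⟩
    refine ⟨c + c', by rw [cs_add, h0, h0', add_zero], fun A => ?_⟩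
    rw [cs_add, ← h, ← h']
    rfl
  zero_mem' := by
    refine ⟨0, ?_, fun A => ?_⟩
    · have := cs_smul 0 (0 : E → ℚ) Set.univ
      rw [zero_smul, zero_mul] at this
      exact this
    · have := cs_smul 0 (0 : E → ℚ) A.1
      rw [zero_smul, zero_mul] at this
      rw [this]
      rfl
  smul_mem' := by
    rintro r g ⟨c, h0, h⟩
    refine ⟨r • c, by rw [cs_smul, h0, mul_zero], fun A => ?_⟩
    rw [cs_smul, ← h]
    rfl

theorem exists_weight [Finite E] : ∃ w : Set (Up E) → ℚ, IsWeight w := by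
  classical
  have := Fintype.ofFinite E
  let ι : Type _ := {T : Set (Up E) // T.indicator (1 : Up E → ℚ) ∉ D E}
  obtain ⟨f, hf⟩ := Module.exists_dual_forall_apply_ne_zero (K := ℚ)
    (M := (Up E → ℚ) ⧸ D E) (ι := ι) (fun T => (D E).mkQ (T.1.indicator 1)) (fun T h => T.2 (by
      rw [Submodule.mkQ_apply, Submodule.Quotient.mk_eq_zero] at h
      exact h))
  refine ⟨fun T => f ((D E).mkQ (T.indicator 1)), ⟨?_, ?_, ?_⟩⟩
  · intro X Y hd
    rw [Set.indicator_union_of_disjoint hd, ← map_add, ← map_add]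
    rfl
  · intro x y hxy
    have hmem : (S x y).indicator (1 : Up E → ℚ) ∈ D E := by
      refine ⟨Pi.single y 1 + (-1 : ℚ) • Pi.single x 1, ?_, fun A => ?_⟩
      · rw [cs_add, cs_smul, cs_single, cs_single]
        simp
      · rw [cs_add, cs_smul, cs_single, cs_single]
        by_cases hx : x ∈ A.1
        · have hy : y ∈ A.1 := A.2 hxy.le hx
          rw [Set.indicator_of_notMem (s := S x y) (fun h => h.2 hx), Set.indicator_of_mem hx,
            Set.indicator_of_mem hy]
          simp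
        · by_cases hy : y ∈ A.1
          · rw [Set.indicator_of_mem (s := S x y) ⟨hy, hx⟩, Set.indicator_of_notMem hx,
              Set.indicator_of_mem hy]
            simp
          · rw [Set.indicator_of_notMem (s := S x y) (fun h => hy h.1),
              Set.indicator_of_notMem hx, Set.indicator_of_notMem hy]
            simp
    have : (D E).mkQ ((S x y).indicator 1) = 0 := by
      rw [Submodule.mkQ_apply, Submodule.Quotient.mk_eq_zero]
      exact hmem
    show f ((D E).mkQ ((S x y).indicator 1)) = 0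
    rw [this, map_zero]
  · intro X hX
    have hmem : X.1.indicator (1 : Up E → ℚ) ∈ D E := by
      by_contra h
      exact hf ⟨X.1, h⟩ hX
    obtain ⟨c, h0, h⟩ := hmem
    refine key X.1 X.2 c h0 ?_ ?_
    · intro A hA
      rw [← h, Set.indicator_of_mem hA]
      rfl
    · intro A hA
      rw [← h, Set.indicator_of_notMem hA]

end weight

theorem S_conn {E : Type*} [PartialOrder E] [Finite E] {x y : E} (hxy : x < y) :
    ((H E).induce (S x y)).Connected := by
  have := Fintype.ofFinite E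
  exact S_connected hxy

section embed

variable {E : Type*} [PartialOrder E] {w : Set (Up E) → ℚ}

/-- The family attached to a relation: the sets `S x y`, `(x, y) ∈ a`, and the connected sets of
positive weight. -/
def hat (w : Set (Up E) → ℚ) (a : Set (E × E)) : Set (So (H E)) :=
  {X | (∃ p ∈ a, X.1 = S p.1 p.2) ∨ 0 < w X.1}

variable {e : Set (E × E)} (he : ∀ p, p ∈ e ↔ p.1 < p.2) (hw : IsWeight w)
include he hw

theorem hat_compl {a : Set (E × E)} (ha : a ⊆ e) :
    (hat w a)ᶜ = hat (fun X => -w X) (e \ a) := by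
  ext X
  constructor
  · intro h
    by_cases h0 : w X.1 < 0
    · exact Or.inr (neg_pos.2 h0)
    · have h1 : ¬ 0 < w X.1 := fun h' => h (Or.inr h')
      obtain ⟨x, y, hxy, hX⟩ := hw.only X (le_antisymm (not_lt.1 h1) (not_lt.1 h0))
      exact Or.inl ⟨(x, y), ⟨(he _).2 hxy, fun ha => h (Or.inl ⟨(x, y), ha, hX⟩)⟩, hX⟩
  · rintro (⟨p, ⟨hp, hpa⟩, hX⟩ | h) (⟨q, hq, hX'⟩ | h')
    · obtain ⟨h1, h2⟩ := S_inj ((he _).1 hp) ((he _).1 (ha hq)) (hX.symm.trans hX')
      exact hpa (by rw [Prod.ext h1 h2]; exact hq)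
    · rw [hX, hw.zero _ _ ((he _).1 hp)] at h'
      exact lt_irrefl _ h'
    · simp only at h
      rw [hX', hw.zero _ _ ((he _).1 (ha hq)), neg_zero] at h
      exact lt_irrefl _ h
    · simp only at h
      linarith

theorem hat_nonneg {a : Set (E × E)} (ha : a ⊆ e) {X : So (H E)} (hX : X ∈ hat w a) :
    0 ≤ w X.1 := by
  rcases hX with ⟨p, hp, hX⟩ | h
  · rw [hX, hw.zero _ _ ((he _).1 (ha hp))]
  · exact h.le

theorem hat_closed {a : Set (E × E)} (ha : a ⊆ e) (ht : Pool.Agent.R645.RegTree.IsTransitive a) :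
    IsClosedFam (H E) (hat w a) := by
  intro X hX Y hY hd Z hZ
  have hZw : w Z.1 = w X.1 + w Y.1 := by rw [hZ, hw.add _ _ hd]
  have hX0 := hat_nonneg he hw ha hX
  have hY0 := hat_nonneg he hw ha hY
  rcases hX with ⟨p, hp, hX⟩ | hX
  · rcases hY with ⟨q, hq, hY⟩ | hY
    · left
      have h1 := (he _).1 (ha hp)
      have h2 := (he _).1 (ha hq)
      have h0 : w Z.1 = 0 := by
        rw [hZw, hX, hY, hw.zero _ _ h1, hw.zero _ _ h2, add_zero]
      obtain ⟨x, z, hxz, hZ'⟩ := hw.only Z h0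
      rw [hX, hY] at hd
      have hS : S x z = S p.1 p.2 ∪ S q.1 q.2 := by rw [← hZ', hZ, hX, hY]
      rcases comp h1 h2 hxz hd hS with ⟨g1, g2, g3⟩ | ⟨g1, g2, g3⟩
      · refine ⟨(x, z), ?_, hZ'⟩
        have hp' : (q.2, z) ∈ a := by rw [g1, g3]; exact hp
        have hq' : (x, q.2) ∈ a := by rw [g2]; exact hq
        exact ht _ _ _ hq' hp'
      · refine ⟨(x, z), ?_, hZ'⟩
        have hp' : (x, p.2) ∈ a := by rw [g2]; exact hp
        have hq' : (p.2, z) ∈ a := by rw [g1, g3]; exact hq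
        exact ht _ _ _ hp' hq'
    · exact Or.inr (by rw [hZw]; linarith)
  · exact Or.inr (by rw [hZw]; linarith)

theorem cl_hat [Finite E] {a : Set (E × E)} (ha : a ⊆ e) (hte : Pool.Agent.R645.RegTree.IsTransitive e) :
    cl (H E) (hat w a) = hat w (Pool.Agent.R645.RegTree.cl a) := by
  have hcl : Pool.Agent.R645.RegTree.cl a ⊆ e := Pool.Agent.R645.RegTree.cl_subset ha hte
  apply Set.Subset.antisymm
  · refine cl_subset ?_ (hat_closed he hw hcl (Pool.Agent.R645.RegTree.cl_transitive a))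
    rintro X (⟨p, hp, hX⟩ | hX)
    · exact Or.inl ⟨p, Pool.Agent.R645.RegTree.subset_cl a hp, hX⟩
    · exact Or.inr hX
  · rintro X (⟨⟨x, y⟩, hp, hX⟩ | hX)
    · simp only at hX
      change TransGen (fun x y => (x, y) ∈ a) x y at hp
      induction hp generalizing X with
      | single h1 => exact subset_cl _ (Or.inl ⟨_, h1, hX⟩)
      | @tail b c hb h2 ih =>
        have hxb : x < b := (he _).1 (hcl (show (x, b) ∈ Pool.Agent.R645.RegTree.cl a from hb))
        have hbc : b < c := (he _).1 (ha h2)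
        obtain ⟨g1, g2⟩ := S_union hxb hbc
        refine cl_closed _ ⟨S x b, S_conn hxb⟩ (ih (X := ⟨S x b, S_conn hxb⟩) rfl)
          ⟨S b c, S_conn hbc⟩ (subset_cl _ (Or.inl ⟨_, h2, rfl⟩)) g2 X ?_
        rw [hX, g1]
    · exact subset_cl _ (Or.inr hX)

theorem interior_hat [Finite E] {a : Set (E × E)} (ha : a ⊆ e)
    (hte : Pool.Agent.R645.RegTree.IsTransitive e) :
    interior (H E) (hat w a) = hat w (Pool.Agent.R645.RegTree.interior e a) := by
  have hcl : Pool.Agent.R645.RegTree.cl (e \ a) ⊆ e :=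
    Pool.Agent.R645.RegTree.cl_subset Set.sdiff_subset hte
  unfold interior
  rw [hat_compl he hw ha, cl_hat he hw.neg Set.sdiff_subset hte, hat_compl he hw.neg hcl,
    Pool.Agent.R645.RegTree.interior_eq hte]
  simp only [neg_neg]

omit he hw in
theorem hat_union (a b : Set (E × E)) : hat w (a ∪ b) = hat w a ∪ hat w b := by
  ext X
  constructor
  · rintro (⟨p, hp | hp, hX⟩ | h)
    · exact Or.inl (Or.inl ⟨p, hp, hX⟩)
    · exact Or.inr (Or.inl ⟨p, hp, hX⟩)
    · exact Or.inl (Or.inr h)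
  · rintro ((⟨p, hp, hX⟩ | h) | (⟨p, hp, hX⟩ | h))
    · exact Or.inl ⟨p, Or.inl hp, hX⟩
    · exact Or.inr h
    · exact Or.inl ⟨p, Or.inr hp, hX⟩
    · exact Or.inr h

omit hw in
theorem hat_inter {a b : Set (E × E)} (ha : a ⊆ e) (hb : b ⊆ e) :
    hat w (a ∩ b) = hat w a ∩ hat w b := by
  ext X
  constructor
  · rintro (⟨p, hp, hX⟩ | h)
    · exact ⟨Or.inl ⟨p, hp.1, hX⟩, Or.inl ⟨p, hp.2, hX⟩⟩
    · exact ⟨Or.inr h, Or.inr h⟩
  · rintro ⟨⟨p, hp, hX⟩ | h, h'⟩
    · rcases h' with ⟨q, hq, hX'⟩ | h'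
      · obtain ⟨h1, h2⟩ := S_inj ((he _).1 (ha hp)) ((he _).1 (hb hq)) (hX.symm.trans hX')
        refine Or.inl ⟨p, ⟨hp, ?_⟩, hX⟩
        rw [Prod.ext h1 h2]
        exact hq
      · exact Or.inr h'
    · exact Or.inr h

theorem hat_inj {a b : Set (E × E)} (ha : a ⊆ e) (hb : b ⊆ e) [Finite E]
    (h : hat w a = hat w b) : a = b := by
  have key : ∀ {a b : Set (E × E)}, a ⊆ e → b ⊆ e → hat w a = hat w b → a ⊆ b := by
    intro a b ha hb h p hp
    have hlt := (he _).1 (ha hp)
    have h1 : (⟨S p.1 p.2, S_conn hlt⟩ : So (H E)) ∈ hat w b := by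
      rw [← h]
      exact Or.inl ⟨p, hp, rfl⟩
    rcases h1 with ⟨q, hq, hX⟩ | h1
    · obtain ⟨g1, g2⟩ := S_inj hlt ((he _).1 (hb hq)) hX
      rw [Prod.ext g1 g2]
      exact hq
    · simp only at h1
      rw [hw.zero _ _ hlt] at h1
      exact absurd h1 (lt_irrefl _)
  exact Set.Subset.antisymm (key ha hb h) (key hb ha h.symm)

theorem hat_regular [Finite E] (hte : Pool.Agent.R645.RegTree.IsTransitive e)
    (a : Pool.Agent.R645.RegTree.Reg e) : IsRegularClosed (H E) (hat w a.1) := by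
  have hint : Pool.Agent.R645.RegTree.interior e a.1 ⊆ e :=
    (Pool.Agent.R645.RegTree.interior_subset e a.1).trans a.2.1
  unfold IsRegularClosed
  rw [interior_hat he hw a.2.1 hte, cl_hat he hw hint hte, ← a.2.2]

end embed

/-- The values of lattice terms under the embedding. -/
theorem eval_hat {E : Type*} [PartialOrder E] [Finite E] {w : Set (Up E) → ℚ} {e : Set (E × E)}
    (he : ∀ p, p ∈ e ↔ p.1 < p.2) (hw : IsWeight w)
    (hte : Pool.Agent.R645.RegTree.IsTransitive e) (F : ℕ → Pool.Agent.R645.RegTree.Reg e)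
    (s : LTerm) :
    @LTerm.eval (R (H E)) (R.lattice (H E))
      (fun i => ⟨hat w (F i).1, hat_regular he hw hte (F i)⟩) s =
    ⟨hat w (@LTerm.eval _ (Pool.Agent.R645.RegTree.Reg.lattice e hte) F s).1,
      hat_regular he hw hte _⟩ := by
  induction s with
  | var i => rfl
  | sup s t hs ht =>
    apply Subtype.ext
    have h1 : (@LTerm.eval (R (H E)) (R.lattice (H E))
        (fun i => ⟨hat w (F i).1, hat_regular he hw hte (F i)⟩) (.sup s t)).1 =
        cl (H E) ((@LTerm.eval (R (H E)) (R.lattice (H E))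
          (fun i => ⟨hat w (F i).1, hat_regular he hw hte (F i)⟩) s).1 ∪
          (@LTerm.eval (R (H E)) (R.lattice (H E))
          (fun i => ⟨hat w (F i).1, hat_regular he hw hte (F i)⟩) t).1) := rfl
    rw [h1, hs, ht]
    set a := @LTerm.eval _ (Pool.Agent.R645.RegTree.Reg.lattice e hte) F s with ha
    set b := @LTerm.eval _ (Pool.Agent.R645.RegTree.Reg.lattice e hte) F t with hb
    have h2 : (@LTerm.eval _ (Pool.Agent.R645.RegTree.Reg.lattice e hte) F (.sup s t)).1 =
        Pool.Agent.R645.RegTree.cl (a.1 ∪ b.1) := rfl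
    show cl (H E) (hat w a.1 ∪ hat w b.1) = hat w _
    rw [h2, ← hat_union, cl_hat he hw (Set.union_subset a.2.1 b.2.1) hte]
  | inf s t hs ht =>
    apply Subtype.ext
    have h1 : (@LTerm.eval (R (H E)) (R.lattice (H E))
        (fun i => ⟨hat w (F i).1, hat_regular he hw hte (F i)⟩) (.inf s t)).1 =
        cl (H E) (interior (H E) ((@LTerm.eval (R (H E)) (R.lattice (H E))
          (fun i => ⟨hat w (F i).1, hat_regular he hw hte (F i)⟩) s).1 ∩
          (@LTerm.eval (R (H E)) (R.lattice (H E))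
          (fun i => ⟨hat w (F i).1, hat_regular he hw hte (F i)⟩) t).1)) := rfl
    rw [h1, hs, ht]
    set a := @LTerm.eval _ (Pool.Agent.R645.RegTree.Reg.lattice e hte) F s with ha
    set b := @LTerm.eval _ (Pool.Agent.R645.RegTree.Reg.lattice e hte) F t with hb
    have h2 : (@LTerm.eval _ (Pool.Agent.R645.RegTree.Reg.lattice e hte) F (.inf s t)).1 =
        Pool.Agent.R645.RegTree.cl (Pool.Agent.R645.RegTree.interior e (a.1 ∩ b.1)) := rfl
    have h3 : a.1 ∩ b.1 ⊆ e := Set.inter_subset_left.trans a.2.1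
    show cl (H E) (interior (H E) (hat w a.1 ∩ hat w b.1)) = hat w _
    rw [h2, ← hat_inter he a.2.1 b.2.1, interior_hat he hw h3 hte, cl_hat he hw
      ((Pool.Agent.R645.RegTree.interior_subset e _).trans h3) hte]

universe u

/-- No nontrivial lattice identity holds in all lattices `R(G)`. -/
theorem main (s t : LTerm)
    (h : ∀ (V : Type) [Finite V] (G : SimpleGraph V) (F : ℕ → R G),
      @LTerm.eval (R G) (R.lattice G) F s = @LTerm.eval (R G) (R.lattice G) F t)
    (K : Type u) [Lattice K] (v : ℕ → K) : s.eval v = t.eval v := by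
  refine Pool.Agent.R645.RegTree.main s t ?_ K v
  intro E _ e hE F
  let _ : PartialOrder E :=
    { le := fun x y => x = y ∨ (x, y) ∈ e
      lt := fun x y => (x, y) ∈ e
      le_refl := fun x => Or.inl rfl
      le_trans := by
        rintro x y z (rfl | h1) (rfl | h2)
        · exact Or.inl rfl
        · exact Or.inr h2
        · exact Or.inr h1
        · exact Or.inr (hE.2 _ _ _ h1 h2)
      lt_iff_le_not_ge := by
        intro x y
        constructor
        · intro h1
          refine ⟨Or.inr h1, ?_⟩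
          rintro (rfl | h2)
          · exact hE.1 _ h1
          · exact hE.1 _ (hE.2 _ _ _ h1 h2)
        · rintro ⟨rfl | h1, h2⟩
          · exact absurd (Or.inl rfl) h2
          · exact h1
      le_antisymm := by
        rintro x y (rfl | h1) (h2 | h2)
        · rfl
        · rfl
        · exact h2.symm
        · exact absurd (hE.2 _ _ _ h1 h2) (hE.1 _) }
  have he : ∀ p : E × E, p ∈ e ↔ p.1 < p.2 := fun p => Iff.rfl
  obtain ⟨w, hw⟩ := exists_weight (E := E)
  have h1 := h (Up E) (H E) (fun i => ⟨hat w (F i).1, hat_regular he hw hE.2 (F i)⟩)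
  rw [eval_hat he hw hE.2 F s, eval_hat he hw hE.2 F t] at h1
  apply Subtype.ext
  exact hat_inj he hw (@LTerm.eval _ (Pool.Agent.R645.RegTree.Reg.lattice e hE.2) F s).2.1
    (@LTerm.eval _ (Pool.Agent.R645.RegTree.Reg.lattice e hE.2) F t).2.1 (congrArg Subtype.val h1)

end Pool.Agent.U728.RGraph
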